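import Mathlib

/-!
# Extension properties of strong Gurarii spaces: amalgams of the space with a plane
-/

open Set Filter Topology
open scoped ENNReal

namespace Pool.Agent.R278.Sing

/-- Strong Gurarii spaces (internal form). -/
def SG (X : Type) [NormedAddCommGroup X] [NormedSpace ℝ X] : Prop :=
  ∀ (T : Type) [NormedAddCommGroup T] [NormedSpace ℝ T] [FiniteDimensional ℝ T]
    (S : Submodule ℝ T) (f : S →ₗᵢ[ℝ] X), ∃ g : T →ₗᵢ[ℝ] X, ∀ s : S, g (s : T) = f s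

variable {X : Type} [NormedAddCommGroup X] [NormedSpace ℝ X]

theorem SG.extend (hX : SG X) {A T : Type} [NormedAddCommGroup A] [NormedSpace ℝ A]
    [NormedAddCommGroup T] [NormedSpace ℝ T] [FiniteDimensional ℝ T] (i : A →ₗᵢ[ℝ] T)
    (f : A →ₗᵢ[ℝ] X) : ∃ g : T →ₗᵢ[ℝ] X, ∀ a, g (i a) = f a := by
  obtain ⟨g, hg⟩ := hX T (LinearMap.range i.toLinearMap)
    (f.comp i.equivRange.symm.toLinearIsometry)
  refine ⟨g, fun a => ?_⟩
  have h1 := hg (i.equivRange a)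
  have h2 : ((i.equivRange a : LinearMap.range i.toLinearMap) : T) = i a := rfl
  rw [h2] at h1
  rw [h1]
  change f (i.equivRange.symm (i.equivRange a)) = f a
  rw [LinearIsometryEquiv.symm_apply_apply]

theorem SG.exists_type (hX : SG X) {A : Type} [NormedAddCommGroup A] [NormedSpace ℝ A]
    [FiniteDimensional ℝ A] (i : A →ₗᵢ[ℝ] X) (φ : A →ₗ[ℝ] ℝ) (hφ : ∀ a, |φ a| ≤ ‖a‖) :
    ∃ y : X, ∀ a (s : ℝ), ‖i a + s • y‖ = max ‖a‖ |φ a + s| := by
  let k : A →ₗᵢ[ℝ] (A × ℝ) := ⟨LinearMap.prod LinearMap.id φ, fun a => by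
    change max ‖a‖ ‖φ a‖ = ‖a‖
    rw [Real.norm_eq_abs]
    exact max_eq_left (hφ a)⟩
  obtain ⟨g, hg⟩ := hX.extend k i
  refine ⟨g (0, 1), fun a s => ?_⟩
  rw [← hg, ← map_smul, ← map_add, g.norm_map]
  have h1 : k a + s • ((0 : A), (1 : ℝ)) = (a, φ a + s) := by
    change (a, φ a) + s • ((0 : A), (1 : ℝ)) = _
    rw [Prod.smul_mk, Prod.mk_add_mk, smul_zero, add_zero, smul_eq_mul, mul_one]
  rw [h1]
  change max ‖a‖ ‖φ a + s‖ = _
  rw [Real.norm_eq_abs]

/-- The real inner product on `ℂ`. -/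
noncomputable def dp (x e : ℂ) : ℝ := x.re * e.re + x.im * e.im

theorem dp_add (x e e' : ℂ) : dp x (e + e') = dp x e + dp x e' := by
  simp only [dp, Complex.add_re, Complex.add_im]
  ring

theorem dp_smul (x e : ℂ) (c : ℝ) : dp x (c • e) = c * dp x e := by
  simp only [dp, Complex.smul_re, Complex.smul_im, smul_eq_mul]
  ring

theorem normSq_eq (x : ℂ) : ‖x‖ ^ 2 = x.re ^ 2 + x.im ^ 2 := by
  rw [Complex.sq_norm, Complex.normSq_apply]
  ring

theorem abs_dp_le (x e : ℂ) : |dp x e| ≤ ‖x‖ * ‖e‖ := by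
  apply abs_le_of_sq_le_sq' _ (by positivity) |> abs_le.2
  rw [mul_pow, normSq_eq, normSq_eq, dp]
  nlinarith [sq_nonneg (x.re * e.im - x.im * e.re)]

theorem dp_self (x : ℂ) : dp x x = ‖x‖ ^ 2 := by
  rw [normSq_eq, dp]
  ring

theorem dp_sub_left (x y e : ℂ) : dp (x - y) e = dp x e - dp y e := by
  simp only [dp, Complex.sub_re, Complex.sub_im]
  ring

theorem dp_one (x : ℂ) : dp x 1 = x.re := by
  simp [dp]

theorem amalg (hX : SG X) (H : Submodule ℝ X) [FiniteDimensional ℝ H]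
    (B : Set ((X →L[ℝ] ℝ) × ℂ)) (h1 : ∀ p ∈ B, ‖p.1‖ ≤ 1) (h2 : ∀ p ∈ B, ‖p.2‖ ≤ 1)
    (hP1 : ∀ x : ℂ, ‖x‖ = 1 → ∃ Ψ, (Ψ, x) ∈ B)
    (hP2 : ∀ Ψ : X →L[ℝ] ℝ, ‖Ψ‖ ≤ 1 → ∃ x, (Ψ, x) ∈ B) :
    ∃ j : ℂ →ₗᵢ[ℝ] X, ∀ h ∈ H, ∀ e C, 0 ≤ C → (∀ p ∈ B, |p.1 h + dp p.2 e| ≤ C) →
      ‖h + j e‖ ≤ C := by
  have ha1 : ∀ x : X, ∀ p : B, ‖p.1.1 x‖ ≤ ‖x‖ := fun x p => by
    refine (p.1.1.le_opNorm x).trans ?_
    have := h1 _ p.2
    nlinarith [norm_nonneg x]
  have hb1 : ∀ x : ℂ, ∀ p : B, ‖dp p.1.2 x‖ ≤ ‖x‖ := fun x p => by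
    rw [Real.norm_eq_abs]
    refine (abs_dp_le _ _).trans ?_
    have := h2 _ p.2
    nlinarith [norm_nonneg x]
  have ha2 : ∀ x : X, Memℓp (fun p : B => p.1.1 x) ∞ := fun x =>
    memℓp_infty ⟨‖x‖, by rintro _ ⟨p, rfl⟩; exact ha1 x p⟩
  have hb2 : ∀ x : ℂ, Memℓp (fun p : B => dp p.1.2 x) ∞ := fun x =>
    memℓp_infty ⟨‖x‖, by rintro _ ⟨p, rfl⟩; exact hb1 x p⟩
  let a : X →ₗᵢ[ℝ] lp (fun _ : B => ℝ) ∞ :=
    { toFun := fun x => ⟨fun p : B => p.1.1 x, ha2 x⟩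
      map_add' := fun x y => by
        apply lp.ext
        funext p
        exact map_add p.1.1 x y
      map_smul' := fun c x => by
        apply lp.ext
        funext p
        exact map_smul p.1.1 c x
      norm_map' := fun x => by
        refine le_antisymm ?_ ?_
        · refine lp.norm_le_of_forall_le (norm_nonneg _) fun p => ?_
          exact ha1 x p
        · obtain ⟨ψ, h3, h4⟩ := exists_dual_vector'' ℝ x
          obtain ⟨x', hx'⟩ := hP2 ψ h3
          have h5 : ‖ψ x‖ ≤ _ := lp.norm_apply_le_norm (by simp)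
            (⟨fun p : B => p.1.1 x, ha2 x⟩ : lp (fun _ : B => ℝ) ∞) ⟨(ψ, x'), hx'⟩
          rw [h4] at h5
          simpa using h5 }
  let b : ℂ →ₗᵢ[ℝ] lp (fun _ : B => ℝ) ∞ :=
    { toFun := fun x => ⟨fun p : B => dp p.1.2 x, hb2 x⟩
      map_add' := fun x y => by
        apply lp.ext
        funext p
        exact dp_add p.1.2 x y
      map_smul' := fun c x => by
        apply lp.ext
        funext p
        exact dp_smul p.1.2 x c
      norm_map' := fun x => by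
        refine le_antisymm ?_ ?_
        · refine lp.norm_le_of_forall_le (norm_nonneg _) fun p => ?_
          exact hb1 x p
        · by_cases hx : x = 0
          · subst hx
            rw [norm_zero]
            exact norm_nonneg _
          have hx' : 0 < ‖x‖ := norm_pos_iff.2 hx
          obtain ⟨ψ, hψ⟩ := hP1 ((‖x‖⁻¹ : ℝ) • x) (by
            rw [norm_smul, norm_inv, norm_norm, inv_mul_cancel₀ hx'.ne'])
          have h5 : ‖dp ((‖x‖⁻¹ : ℝ) • x) x‖ ≤ _ := lp.norm_apply_le_norm (by simp)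
            (⟨fun p : B => dp p.1.2 x, hb2 x⟩ : lp (fun _ : B => ℝ) ∞) ⟨(ψ, _), hψ⟩
          have h6 : dp ((‖x‖⁻¹ : ℝ) • x) x = ‖x‖ := by
            have : dp ((‖x‖⁻¹ : ℝ) • x) x = ‖x‖⁻¹ * dp x x := by
              simp only [dp, Complex.smul_re, Complex.smul_im, smul_eq_mul]
              ring
            rw [this, dp_self]
            field_simp
          rw [h6, norm_norm] at h5
          exact h5 }
  let F : Submodule ℝ (lp (fun _ : B => ℝ) ∞) := H.map a.toLinearMap ⊔ LinearMap.range b.toLinearMap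
  have hF : FiniteDimensional ℝ F := by
    change FiniteDimensional ℝ
      (H.map a.toLinearMap ⊔ LinearMap.range b.toLinearMap : Submodule ℝ _)
    infer_instance
  have hi : ∀ h : H, a h ∈ F := fun h => Submodule.mem_sup_left ⟨h, h.2, rfl⟩
  have hk : ∀ e : ℂ, b e ∈ F := fun e => Submodule.mem_sup_right ⟨e, rfl⟩
  let i : H →ₗᵢ[ℝ] F :=
    { toFun := fun h => ⟨a h, hi h⟩
      map_add' := fun x y => Subtype.ext (map_add a (x : X) (y : X))
      map_smul' := fun c x => Subtype.ext (map_smul a c (x : X))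
      norm_map' := fun x => a.norm_map (x : X) }
  let k : ℂ →ₗᵢ[ℝ] F :=
    { toFun := fun h => ⟨b h, hk h⟩
      map_add' := fun x y => Subtype.ext (map_add b x y)
      map_smul' := fun c x => Subtype.ext (map_smul b c x)
      norm_map' := fun x => b.norm_map x }
  obtain ⟨g, hg⟩ := hX.extend i H.subtypeₗᵢ
  refine ⟨g.comp k, fun h hh e C hC hB => ?_⟩
  have h3 : h = g (i ⟨h, hh⟩) := (hg ⟨h, hh⟩).symm
  have h4 : h + (g.comp k) e = g (i ⟨h, hh⟩ + k e) := by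
    rw [map_add, ← h3]
    rfl
  rw [h4, g.norm_map]
  change ‖a h + b e‖ ≤ C
  refine lp.norm_le_of_forall_le hC fun p => ?_
  rw [Real.norm_eq_abs]
  exact hB p.1 p.2

end Pool.Agent.R278.Sing
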