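import Mathlib

/-!
# Shift graphs and almost disjoint-like families of directions
-/

open Cardinal Set

namespace Pool.Agent.R278.Sing

theorem pair_lemma {W D : Type} [LinearOrder W] (hW : #(Set D) < #W) (c : W → W → D) :
    ∃ a b d, a < b ∧ b < d ∧ c a b = c b d := by
  let S : W → Set D := fun b => {x | ∃ d, b < d ∧ c b d = x}
  have h1 : ¬ Function.Injective S := fun h => (Cardinal.mk_le_of_injective h).not_gt hW
  have h2 : ∃ a b, S a = S b ∧ a < b := by
    simp only [Function.Injective, not_forall] at h1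
    obtain ⟨a, b, h3, h4⟩ := h1
    rcases lt_or_gt_of_ne h4 with h5 | h5
    · exact ⟨a, b, h3, h5⟩
    · exact ⟨b, a, h3.symm, h5⟩
  obtain ⟨a, b, h3, h4⟩ := h2
  have h5 : c a b ∈ S a := ⟨b, h4, rfl⟩
  rw [h3] at h5
  obtain ⟨d, h6, h7⟩ := h5
  exact ⟨a, b, d, h4, h6, h7.symm⟩

theorem triple_lemma {W D : Type} [LinearOrder W] (hW : #(Set (Set D)) < #W)
    (c : W → W → W → D) :
    ∃ a b d e, a < b ∧ b < d ∧ d < e ∧ c a b d = c b d e := by
  obtain ⟨a, b, d, hab, hbd, h⟩ := pair_lemma hW (fun b d => {x | ∃ a, a < b ∧ c a b d = x})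
  have h1 : c a b d ∈ {x | ∃ a, a < b ∧ c a b d = x} := ⟨a, hab, rfl⟩
  rw [← h] at h1
  obtain ⟨a', ha', h'⟩ := h1
  exact ⟨a', a, b, d, ha', hab, hbd, h'⟩

variable {X : Type} [NormedAddCommGroup X] [NormedSpace ℝ X]

theorem mk_span_le {S : Set X} {ν : Cardinal} (hν : 𝔠 ≤ ν) (hS : #S ≤ ν) :
    #(Submodule.span ℝ S) ≤ ν := by
  have h1 : Function.Surjective (fun f : S →₀ ℝ =>
      (⟨Finsupp.linearCombination ℝ (Subtype.val : S → X) f, by
        rw [Finsupp.mem_span_iff_linearCombination]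
        exact ⟨f, rfl⟩⟩ : Submodule.span ℝ S)) := by
    rintro ⟨x, hx⟩
    obtain ⟨f, hf⟩ := (Finsupp.mem_span_iff_linearCombination ℝ S x).1 hx
    exact ⟨f, Subtype.ext hf⟩
  refine (mk_le_of_surjective h1).trans ?_
  rcases isEmpty_or_nonempty S with h2 | h2
  · have : Subsingleton (S →₀ ℝ) := inferInstance
    exact (Cardinal.le_one_iff_subsingleton.2 inferInstance).trans
      (Cardinal.one_le_aleph0.trans (aleph0_le_continuum.trans hν))
  · rw [Cardinal.mk_finsupp_lift_of_infinite', Cardinal.lift_id, Cardinal.lift_id,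
      Cardinal.mk_real]
    exact max_le hS hν

theorem exists_family {ν : Cardinal} (hν : 𝔠 ≤ ν) (hd : ∀ S : Set X, Dense S → ν < #S)
    {v : X} (hv : ‖v‖ = 1) :
    ∃ Z : Set X, ν < #Z ∧ (∀ z ∈ Z, ‖z‖ = 1) ∧ ∀ z ∈ Z, ∀ z' ∈ Z, z ≠ z' →
      (∀ γ α β : ℝ, |γ| ≤ ‖γ • v + α • z + β • z'‖) ∧
      (∀ γ α β : ℝ, |α| + |β| ≤ 18 * ‖γ • v + α • z + β • z'‖) := by
  obtain ⟨ψ, hψ1, hψ2⟩ := exists_dual_vector'' ℝ v
  rw [hv] at hψ2
  have hψv : ψ v = 1 := by simpa using hψ2
  have hψle : ∀ x, |ψ x| ≤ ‖x‖ := fun x => by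
    rw [← Real.norm_eq_abs]
    refine (ψ.le_opNorm x).trans ?_
    nlinarith [norm_nonneg x]
  let R : X → X → Prop := fun z z' => ∀ α β : ℝ, |α| + |β| ≤ 9 * ‖α • z + β • z'‖
  let P : Set (Set X) := {Z | (∀ z ∈ Z, ‖z‖ = 1 ∧ ψ z = 0) ∧ Z.Pairwise R}
  obtain ⟨Z, hZ⟩ := zorn_subset P (by
    intro c hc hchain
    refine ⟨⋃₀ c, ⟨?_, ?_⟩, fun s hs => subset_sUnion_of_mem hs⟩
    · rintro z ⟨s, hs, hz⟩
      exact (hc hs).1 z hz
    · rw [Set.pairwise_sUnion hchain.directedOn]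
      intro s hs
      exact (hc hs).2)
  have hZP : Z ∈ P := hZ.prop
  refine ⟨Z, ?_, fun z hz => (hZP.1 z hz).1, ?_⟩
  · by_contra hcon
    rw [not_lt] at hcon
    have h1 : #(insert v Z : Set X) ≤ ν :=
      (mk_insert_le).trans (Cardinal.add_le_of_le (aleph0_le_continuum.trans hν) hcon
        (Cardinal.one_le_aleph0.trans (aleph0_le_continuum.trans hν)))
    have h2 := mk_span_le hν h1
    have h3 : ¬ Dense ((Submodule.span ℝ (insert v Z) : Submodule ℝ X) : Set X) := fun h =>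
      (hd _ h).not_ge h2
    let F := (Submodule.span ℝ (insert v Z)).topologicalClosure
    have hF : ∃ x, x ∉ F := by
      by_contra h4
      push Not at h4
      exact h3 fun x => by
        have := h4 x
        exact this
    have hsub : ∀ x ∈ insert v Z, x ∈ F := fun x hx =>
      Submodule.le_topologicalClosure _ (Submodule.subset_span hx)
    obtain ⟨x₀, hx₀, hr⟩ := riesz_lemma (Submodule.isClosed_topologicalClosure _) hF
      (by norm_num : (1 / 2 : ℝ) < 1)
    have hvF : v ∈ F := hsub v (mem_insert _ _)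
    set z₀ := x₀ - ψ x₀ • v with hz₀
    have hz₀F : z₀ ∉ F := fun h => hx₀ (by
      have := F.add_mem h (F.smul_mem (ψ x₀) hvF)
      rwa [hz₀, sub_add_cancel] at this)
    have hz₀0 : 0 < ‖z₀‖ := norm_pos_iff.2 fun h => hz₀F (by rw [h]; exact F.zero_mem)
    have hz₀n : ‖z₀‖ ≤ 2 * ‖x₀‖ := by
      refine (norm_sub_le _ _).trans ?_
      rw [norm_smul, hv, Real.norm_eq_abs]
      have := hψle x₀
      linarith
    have hdist : ∀ y ∈ F, ‖z₀‖ ≤ 4 * ‖z₀ - y‖ := by
      intro y hy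
      have h5 := hr (ψ x₀ • v + y) (F.add_mem (F.smul_mem _ hvF) hy)
      have h6 : x₀ - (ψ x₀ • v + y) = z₀ - y := by rw [hz₀]; abel
      rw [h6] at h5
      linarith
    set z := ‖z₀‖⁻¹ • z₀ with hzdef
    have hz1 : ‖z‖ = 1 := by
      rw [hzdef, norm_smul, norm_inv, norm_norm, inv_mul_cancel₀ hz₀0.ne']
    have hzψ : ψ z = 0 := by
      rw [hzdef, map_smul, hz₀, map_sub, map_smul, hψv]
      simp
    have hzF : z ∉ F := fun h => hz₀F (by
      have := F.smul_mem ‖z₀‖ h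
      rwa [hzdef, smul_smul, mul_inv_cancel₀ hz₀0.ne', one_smul] at this)
    have hzdist : ∀ α : ℝ, ∀ y ∈ F, |α| ≤ 4 * ‖α • z + y‖ := by
      intro α y hy
      by_cases hα : α = 0
      · rw [hα, abs_zero]
        positivity
      have h5 := hdist (-((‖z₀‖ / α) • y)) (F.neg_mem (F.smul_mem _ hy))
      have h6 : α • z + y = (α / ‖z₀‖) • (z₀ - -((‖z₀‖ / α) • y)) := by
        have h7 : α / ‖z₀‖ * (‖z₀‖ / α) = 1 := by field_simp
        have h7' : (α / ‖z₀‖) • ((‖z₀‖ / α) • y) = y := by rw [smul_smul, h7, one_smul]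
        have h7'' : α • z = (α / ‖z₀‖) • z₀ := by rw [hzdef, smul_smul, div_eq_mul_inv]
        rw [sub_neg_eq_add, smul_add, h7', h7'']
      rw [h6, norm_smul, Real.norm_eq_abs, abs_div, abs_of_pos hz₀0]
      have h8 : |α| = |α| / ‖z₀‖ * ‖z₀‖ := by field_simp
      calc |α| = |α| / ‖z₀‖ * ‖z₀‖ := h8
        _ ≤ |α| / ‖z₀‖ * (4 * ‖z₀ - -((‖z₀‖ / α) • y)‖) :=
            mul_le_mul_of_nonneg_left h5 (by positivity)
        _ = _ := by ring
    have hzZ : z ∉ Z := fun h => hzF (hsub z (mem_insert_of_mem _ h))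
    have hRz : ∀ z' ∈ Z, ∀ α β : ℝ, |α| + |β| ≤ 9 * ‖α • z + β • z'‖ := by
      intro z' hz' α β
      have h5 := hzdist α (β • z') (F.smul_mem _ (hsub z' (mem_insert_of_mem _ hz')))
      have h6 : |β| ≤ ‖α • z + β • z'‖ + |α| := by
        have h7 : β • z' = (α • z + β • z') - α • z := by abel
        have h8 : ‖β • z'‖ = |β| := by rw [norm_smul, (hZP.1 z' hz').1, mul_one, Real.norm_eq_abs]
        rw [← h8]
        nth_rewrite 1 [h7]
        refine (norm_sub_le _ _).trans ?_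
        rw [norm_smul, hz1, mul_one, Real.norm_eq_abs]
      linarith
    have hnew : insert z Z ∈ P := by
      refine ⟨?_, ?_⟩
      · rintro y (rfl | hy)
        · exact ⟨hz1, hzψ⟩
        · exact hZP.1 y hy
      · rw [Set.pairwise_insert]
        refine ⟨hZP.2, fun b hb _ => ⟨hRz b hb, fun α β => ?_⟩⟩
        have := hRz b hb β α
        rw [add_comm (α • b), add_comm |α|]
        exact this
    have h9 := hZ.le_of_ge hnew (subset_insert _ _)
    exact hzZ (h9 (mem_insert _ _))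
  · intro z hz z' hz' hne
    have hz0 := (hZP.1 z hz).2
    have hz'0 := (hZP.1 z' hz').2
    have h1 : ∀ γ α β : ℝ, |γ| ≤ ‖γ • v + α • z + β • z'‖ := by
      intro γ α β
      have := hψle (γ • v + α • z + β • z')
      rw [map_add, map_add, map_smul, map_smul, map_smul, hψv, hz0, hz'0] at this
      simpa using this
    refine ⟨h1, fun γ α β => ?_⟩
    have h2 := hZP.2 hz hz' hne α β
    have h3 : α • z + β • z' = (γ • v + α • z + β • z') - γ • v := by abel
    have h4 : ‖α • z + β • z'‖ ≤ ‖γ • v + α • z + β • z'‖ + |γ| := by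
      rw [h3]
      refine (norm_sub_le _ _).trans ?_
      rw [norm_smul, hv, mul_one, Real.norm_eq_abs]
    have h5 := h1 γ α β
    linarith

end Pool.Agent.R278.Sing
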