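import Pool.Agent.R278.Sing.Amalg
import Pool.Agent.R278.Hom.Tree

/-!
# Points forcing the values of their norming functionals
-/

open Set Filter Topology
open scoped ENNReal

namespace Pool.Agent.R278.Sing

variable {X : Type} [NormedAddCommGroup X] [NormedSpace ℝ X]

theorem exists_forcing (hX : SG X) {v z z' : X} (hv : ‖v‖ = 1) (hz : ‖z‖ = 1) (hz' : ‖z'‖ = 1)
    {C : ℝ} (hC : 1 ≤ C) (h1 : ∀ γ α β : ℝ, |γ| ≤ ‖γ • v + α • z + β • z'‖)
    (h2 : ∀ γ α β : ℝ, |α| + |β| ≤ C * ‖γ • v + α • z + β • z'‖) {m : ℝ} (hm : 0 < m)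
    (hm1 : m ≤ 1) :
    ∃ w : X, ‖w‖ = 1 ∧ ‖w - v‖ ≤ 3 * m ∧ ∀ Ψ : X →L[ℝ] ℝ, ‖Ψ‖ ≤ 1 → Ψ w = 1 →
      0 < Ψ z ∧ Ψ z' < 0 := by
  have hC0 : 0 < C := by linarith
  obtain ⟨ψ, hψ, hval⟩ := Hom.hb_values ![v, z, z'] ![1 - m, m / C, -(m / C)] (by
    intro a
    simp only [Fin.sum_univ_three, Matrix.cons_val_zero, Matrix.cons_val_one, Matrix.cons_val]
    set N := ‖a 0 • v + a 1 • z + a 2 • z'‖ with hN
    have e1 := h1 (a 0) (a 1) (a 2)
    have e2 := h2 (a 0) (a 1) (a 2)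
    rw [← hN] at e1 e2
    have e3 : a 0 * (1 - m) + a 1 * (m / C) + a 2 * -(m / C)
        = a 0 * (1 - m) + (m / C) * (a 1 - a 2) := by ring
    rw [e3]
    refine (abs_add_le _ _).trans ?_
    rw [abs_mul, abs_mul, abs_of_nonneg (by linarith : 0 ≤ 1 - m),
      abs_of_nonneg (by positivity : 0 ≤ m / C)]
    have e4 : |a 1 - a 2| ≤ C * N := (abs_sub _ _).trans e2
    have e5 : m / C * |a 1 - a 2| ≤ m / C * (C * N) :=
      mul_le_mul_of_nonneg_left e4 (by positivity)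
    have e6 : m / C * (C * N) = m * N := by field_simp
    have e7 : |a 0| * (1 - m) ≤ N * (1 - m) := mul_le_mul_of_nonneg_right e1 (by linarith)
    linarith)
  have v1 : ψ v = 1 - m := hval 0
  have v2 : ψ z = m / C := hval 1
  have v3 : ψ z' = -(m / C) := hval 2
  have hle : ∀ x, |ψ x| ≤ ‖x‖ := fun x => by
    rw [← Real.norm_eq_abs]
    refine (ψ.le_opNorm x).trans ?_
    nlinarith [norm_nonneg x]
  let H : Submodule ℝ X := Submodule.span ℝ (Set.range ![v, z, z'])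
  have hH : FiniteDimensional ℝ H := FiniteDimensional.span_of_finite ℝ (Set.finite_range _)
  have hvH : v ∈ H := Submodule.subset_span ⟨0, rfl⟩
  have hzH : z ∈ H := Submodule.subset_span ⟨1, rfl⟩
  have hz'H : z' ∈ H := Submodule.subset_span ⟨2, rfl⟩
  obtain ⟨y, hy⟩ := hX.exists_type H.subtypeₗᵢ (ψ.toLinearMap.comp H.subtype)
    (fun a => hle (a : X))
  have hy' : ∀ h ∈ H, ∀ s : ℝ, ‖h + s • y‖ = max ‖h‖ |ψ h + s| := fun h hh s => hy ⟨h, hh⟩ s
  have hy1 : ‖y‖ = 1 := by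
    have := hy' 0 H.zero_mem 1
    rw [zero_add, one_smul, norm_zero, map_zero, zero_add, abs_one] at this
    rw [this]
    norm_num
  have hR : ‖v + (2 * m) • y‖ = 1 + m := by
    rw [hy' v hvH, v1, hv, abs_of_nonneg (by linarith)]
    rw [max_eq_right (by linarith)]
    ring
  have hR0 : 0 < 1 + m := by linarith
  have hmC : m / C ≤ m := div_le_self hm.le hC
  have hmC0 : 0 < m / C := by positivity
  refine ⟨(1 + m)⁻¹ • (v + (2 * m) • y), ?_, ?_, ?_⟩
  · rw [norm_smul, hR, norm_inv, Real.norm_of_nonneg hR0.le, inv_mul_cancel₀ hR0.ne']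
  · have e1 : (1 + m)⁻¹ • (v + (2 * m) • y) - v = (1 + m)⁻¹ • ((-m) • v + (2 * m) • y) := by
      have : v = (1 + m)⁻¹ • ((1 + m) • v) := by rw [smul_smul, inv_mul_cancel₀ hR0.ne', one_smul]
      nth_rewrite 2 [this]
      rw [← smul_sub]
      congr 1
      module
    rw [e1, norm_smul, norm_inv, Real.norm_of_nonneg hR0.le]
    have e2 : ‖(-m) • v + (2 * m) • y‖ ≤ 3 * m := by
      refine (norm_add_le _ _).trans ?_
      rw [norm_smul, norm_smul, hv, hy1, norm_neg, Real.norm_of_nonneg hm.le,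
        Real.norm_of_nonneg (by positivity)]
      linarith
    have e3 : (1 + m)⁻¹ ≤ 1 := inv_le_one_of_one_le₀ (by linarith)
    calc (1 + m)⁻¹ * ‖(-m) • v + (2 * m) • y‖ ≤ 1 * (3 * m) :=
          mul_le_mul e3 e2 (norm_nonneg _) zero_le_one
      _ = 3 * m := one_mul _
  · intro Ψ hΨ hw
    have hΨle : ∀ x, Ψ x ≤ ‖x‖ := fun x => by
      refine (le_abs_self _).trans ?_
      rw [← Real.norm_eq_abs]
      refine (Ψ.le_opNorm x).trans ?_
      nlinarith [norm_nonneg x]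
    have hw' : Ψ (v + (2 * m) • y) = 1 + m := by
      rw [map_smul, smul_eq_mul, inv_mul_eq_iff_eq_mul₀ hR0.ne', mul_one] at hw
      exact hw
    have key : ∀ x ∈ H, ‖x‖ = 1 → ∀ t : ℝ, |t| = m / 2 → |ψ x| ≤ m → t * Ψ x ≤ t * ψ x := by
      intro x hxH hx t ht hψx
      have e1 := hΨle ((v + t • x) + (2 * m) • y)
      have e2 : (v + t • x) + (2 * m) • y = (v + (2 * m) • y) + t • x := by abel
      have e3 : Ψ ((v + t • x) + (2 * m) • y) = 1 + m + t * Ψ x := by
        rw [e2, map_add, hw', map_smul, smul_eq_mul]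
      rw [e3, hy' _ (H.add_mem hvH (H.smul_mem t hxH)), map_add, map_smul, v1, smul_eq_mul] at e1
      have e4 : ‖v + t • x‖ ≤ 1 + m / 2 := by
        refine (norm_add_le _ _).trans ?_
        rw [norm_smul, hv, hx, Real.norm_eq_abs, ht, mul_one]
      have e5 : |t * ψ x| ≤ m / 2 := by
        rw [abs_mul, ht]
        nlinarith [abs_nonneg (ψ x)]
      have e6 := abs_le.1 e5
      rw [abs_of_nonneg (by linarith : 0 ≤ 1 - m + t * ψ x + 2 * m)] at e1
      have e7 : max ‖v + t • x‖ (1 - m + t * ψ x + 2 * m) ≤ 1 - m + t * ψ x + 2 * m :=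
        max_le (by linarith) le_rfl
      linarith
    constructor
    · have e1 := key z hzH hz (-(m / 2)) (by rw [abs_neg, abs_of_pos (by positivity)])
        (by rw [v2, abs_of_pos hmC0]; exact hmC)
      rw [v2] at e1
      nlinarith
    · have e1 := key z' hz'H hz' (m / 2) (by rw [abs_of_pos (by positivity)])
        (by rw [v3, abs_neg, abs_of_pos hmC0]; exact hmC)
      rw [v3] at e1
      nlinarith

end Pool.Agent.R278.Sing
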