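import Pool.Agent.R278.Sing.Plane
import Pool.Agent.R278.Sing.Force
import Pool.Agent.R278.Sing.Comb

/-!
# No strong Gurarii space has density a strong limit cardinal of countable cofinality
-/

open Set Filter Topology Cardinal
open scoped ENNReal

namespace Pool.Agent.R278.Sing

variable {X : Type} [NormedAddCommGroup X] [NormedSpace ℝ X]

variable (X) in
/-- The isometric embeddings of the plane. -/
def PP : Set (ℂ →L[ℝ] X) := {j | ∀ e, ‖j e‖ = ‖e‖}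

theorem isClosed_PP : IsClosed (PP X) := by
  have h1 : PP X = ⋂ e : ℂ, {j : ℂ →L[ℝ] X | ‖j e‖ = ‖e‖} := by
    ext j
    simp [PP]
  rw [h1]
  refine isClosed_iInter fun e => ?_
  refine isClosed_eq ?_ continuous_const
  exact ((ContinuousLinearMap.apply ℝ X e).continuous).norm

/-- The isometry. -/
noncomputable def PP.li (j : PP X) : ℂ →ₗᵢ[ℝ] X := ⟨j.1.toLinearMap, j.2⟩

theorem PP.li_apply (j : PP X) (e : ℂ) : PP.li j e = j.1 e := rfl

/-- From isometries. -/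
noncomputable def PP.of (j : ℂ →ₗᵢ[ℝ] X) : PP X := ⟨j.toContinuousLinearMap, j.norm_map⟩

theorem PP.of_apply (j : ℂ →ₗᵢ[ℝ] X) (e : ℂ) : (PP.of j).1 e = j e := rfl

theorem dist_of (j₀ : PP X) (j : ℂ →ₗᵢ[ℝ] X) {ε : ℝ} (hε : 0 ≤ ε)
    (h : ∀ e, ‖j e - PP.li j₀ e‖ ≤ ε * ‖e‖) : dist (PP.of j) j₀ ≤ ε := by
  change dist (PP.of j).1 j₀.1 ≤ ε
  rw [dist_eq_norm]
  refine ContinuousLinearMap.opNorm_le_bound _ hε fun e => ?_
  exact h e

theorem exists_plane_map (hX : SG X) : Nonempty (PP X) := by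
  obtain ⟨g, -⟩ := hX ℂ ⊥ ⟨0, fun x => by
    have : x = 0 := Subsingleton.elim _ _
    rw [this]
    simp⟩
  exact ⟨PP.of g⟩

theorem exists_real_type (hX : SG X) (j : ℂ →ₗᵢ[ℝ] X) :
    ∃ f : X, ∀ (e : ℂ) (s : ℝ), ‖j e + s • f‖ = max ‖e‖ |e.re + s| := by
  obtain ⟨y, hy⟩ := hX.exists_type j Complex.reLm (fun a => by
    rw [Complex.reLm_coe]
    exact Complex.abs_re_le_norm a)
  exact ⟨y, hy⟩

/-- The package attached to a triple. -/
def Pack (ww ww' : X) (q : X) (K κ : ℝ) : Prop :=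
  0 < κ ∧ κ ≤ 2 ∧ ∃ j j' : ℂ →ₗᵢ[ℝ] X, ∃ f : X, ∃ η : ℝ, 0 ≤ η ∧
    η * (1 / κ + (8 / κ ^ 2 + K) / κ) ≤ 1 / 10 ∧
    (∀ (e : ℂ) (s : ℝ), ‖j' e + s • f‖ = max ‖e‖ |e.re + s|) ∧ ‖f - q‖ ≤ 1 / 10 ∧
    (∀ e, ‖j' e - j e‖ ≤ η * ‖e‖) ∧ j (uk κ) = ww ∧
    ‖(8 / κ ^ 2 + K) • j 1 - ww'‖ ≤ (8 / κ ^ 2 + K) - 1 + κ / 2

theorem pack_false {w₁ w₂ w₃ q : X} {K κ : ℝ} (hK : 0 ≤ K) (h1 : Pack w₁ w₂ q K κ)
    (h2 : Pack w₂ w₃ q K κ) : False := by
  obtain ⟨hκ, hκ2, j₁, j₁', f₁, η₁, hη₁, hη₁', hf₁, hq₁, hj₁, -, hM⟩ := h1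
  obtain ⟨-, -, j₂, j₂', f₂, η₂, hη₂, hη₂', hf₂, hq₂, hj₂, hu, -⟩ := h2
  set M := 8 / κ ^ 2 + K with hM'
  set T := 1 / κ with hT
  set T' := M / κ with hT'
  have hT0 : 0 < T := by positivity
  have hM0 : 0 < M := by positivity
  have hT'0 : 0 < T' := by positivity
  have hTκ : T * κ = 1 := by rw [hT]; field_simp
  have hTM : T * M = T' := by rw [hT, hT']; field_simp
  have e1 : ‖j₁' (T' • (1 : ℂ)) + (1 : ℝ) • f₁‖ = T' + 1 := by
    rw [hf₁, norm_smul, norm_one, mul_one, Real.norm_of_nonneg hT'0.le, Complex.smul_re,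
      Complex.one_re, smul_eq_mul, mul_one, abs_of_nonneg (by linarith)]
    exact max_eq_right (by linarith)
  have e2 : ‖j₂' (T • uk κ) + (1 : ℝ) • f₂‖ = T := by
    rw [hf₂, norm_smul, norm_uk hκ.le hκ2, mul_one, Real.norm_of_nonneg hT0.le, Complex.smul_re,
      uk_re, smul_eq_mul]
    have e3 : T * (1 - κ) + 1 = T := by linarith
    rw [e3, abs_of_pos hT0, max_self]
  rw [map_smul, one_smul] at e1 e2
  have a1 : ‖T' • j₁' 1 - T' • j₁ 1‖ ≤ T' * η₁ := by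
    rw [← smul_sub, norm_smul, Real.norm_of_nonneg hT'0.le]
    have := hj₁ 1
    rw [norm_one, mul_one] at this
    exact mul_le_mul_of_nonneg_left this hT'0.le
  have a2 : ‖T' • j₁ 1 - T • w₂‖ ≤ T' - T + 1 / 2 := by
    rw [← hTM, mul_smul, ← smul_sub, norm_smul, Real.norm_of_nonneg hT0.le]
    calc T * ‖M • j₁ 1 - w₂‖ ≤ T * (M - 1 + κ / 2) := mul_le_mul_of_nonneg_left hM hT0.le
      _ = T * M - T + (T * κ) / 2 := by ring
      _ = T * M - T + 1 / 2 := by rw [hTκ]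
  have a3 : ‖T • w₂ - T • j₂' (uk κ)‖ ≤ T * η₂ := by
    rw [← hu, ← smul_sub, norm_smul, Real.norm_of_nonneg hT0.le, norm_sub_rev]
    have := hj₂ (uk κ)
    rw [norm_uk hκ.le hκ2, mul_one] at this
    exact mul_le_mul_of_nonneg_left this hT0.le
  have a4 : T' • j₁' 1 + f₁ = (T' • j₁' 1 - T' • j₁ 1) + ((T' • j₁ 1 - T • w₂) +
      ((T • w₂ - T • j₂' (uk κ)) + ((T • j₂' (uk κ) + f₂) + ((f₁ - q) - (f₂ - q))))) := by abel
  have a5 : ‖(f₁ - q) - (f₂ - q)‖ ≤ 1 / 10 + 1 / 10 :=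
    (norm_sub_le _ _).trans (add_le_add hq₁ hq₂)
  have a6 : T' + 1 ≤ T' * η₁ + ((T' - T + 1 / 2) + (T * η₂ + (T + (1 / 10 + 1 / 10)))) := by
    rw [← e1, a4]
    refine (norm_add_le _ _).trans (add_le_add a1 ?_)
    refine (norm_add_le _ _).trans (add_le_add a2 ?_)
    refine (norm_add_le _ _).trans (add_le_add a3 ?_)
    refine (norm_add_le _ _).trans (add_le_add e2.le a5)
  have a7 : T' * η₁ ≤ 1 / 10 := by
    refine le_trans ?_ hη₁'
    rw [mul_comm]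
    exact mul_le_mul_of_nonneg_left (by linarith) hη₁
  have a8 : T * η₂ ≤ 1 / 10 := by
    refine le_trans ?_ hη₂'
    rw [mul_comm]
    exact mul_le_mul_of_nonneg_left (by linarith) hη₂
  linarith

theorem no_strong_gurarii [CompleteSpace X] (hX : SG X) (Q : ℕ → Set X)
    (hQ : Dense (⋃ m, Q m))
    (hcard : ∀ m, ∀ S : Set X, Dense S →
      (2 : Cardinal) ^ ((2 : Cardinal) ^ (max #(Q m) 𝔠)) < #S) : False := by
  have : Nonempty (PP X) := exists_plane_map hX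
  have : CompleteSpace (PP X) := isClosed_PP.completeSpace_coe
  choose f hf using fun j : PP X => exists_real_type hX (PP.li j)
  let G : ℕ → Set (PP X) := fun m => {j | ∃ q ∈ Q m, ‖f j - q‖ < 1 / 10}
  have hG : ⋃ m, closure (G m) = Set.univ := by
    rw [eq_univ_iff_forall]
    intro j
    obtain ⟨q, hq, hqd⟩ := Metric.mem_closure_iff.1 (hQ (f j)) (1 / 10) (by norm_num)
    obtain ⟨m, hm⟩ := mem_iUnion.1 hq
    exact mem_iUnion.2 ⟨m, subset_closure ⟨q, hm, by rwa [← dist_eq_norm]⟩⟩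
  obtain ⟨m, j₀, hj₀⟩ := nonempty_interior_of_iUnion_of_closed (fun m => isClosed_closure) hG
  obtain ⟨ρ, hρ, hball⟩ := Metric.isOpen_iff.1 isOpen_interior j₀ hj₀
  have hball' : ∀ j : PP X, dist j j₀ < ρ → j ∈ closure (G m) := fun j hj =>
    interior_subset (hball hj)
  set ε := min 1 (ρ / 2) with hε
  have hε0 : 0 < ε := by positivity
  have hερ : ε < ρ := (min_le_right _ _).trans_lt (by linarith)
  obtain ⟨σ, hσ, K, hK, hplane⟩ := exists_plane hX (PP.li j₀) hε0 (min_le_left _ _)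
  set v := PP.li j₀ 1 with hv
  have hv1 : ‖v‖ = 1 := by rw [hv, LinearIsometry.norm_map, norm_one]
  set ν : Cardinal := (2 : Cardinal) ^ ((2 : Cardinal) ^ (max #(Q m) 𝔠)) with hν
  have hμν : max #(Q m) 𝔠 ≤ ν := (cantor _).le.trans (cantor _).le
  obtain ⟨Z, hZν, hZ1, hZ2⟩ := exists_family ((le_max_right _ _).trans hμν) (hcard m) hv1
  set t := min 1 (σ / 3) with ht
  have ht0 : 0 < t := by positivity
  have htσ : 3 * t ≤ σ := by
    have := min_le_right 1 (σ / 3)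
    linarith
  have hforce : ∀ a b : Z, ∃ w : X, a ≠ b → ‖w‖ = 1 ∧ ‖w - v‖ ≤ σ ∧
      ∀ Ψ : X →L[ℝ] ℝ, ‖Ψ‖ ≤ 1 → Ψ w = 1 → 0 < Ψ (a : X) ∧ Ψ (b : X) < 0 := by
    intro a b
    by_cases hab : a = b
    · exact ⟨0, fun h => (h hab).elim⟩
    have hab' : (a : X) ≠ b := fun h => hab (Subtype.ext h)
    obtain ⟨h1, h2⟩ := hZ2 a a.2 b b.2 hab'
    obtain ⟨w, hw1, hw2, hw3⟩ := exists_forcing hX hv1 (hZ1 a a.2) (hZ1 b b.2)
      (by norm_num : (1 : ℝ) ≤ 18) h1 h2 ht0 (min_le_left _ _)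
    exact ⟨w, fun _ => ⟨hw1, hw2.trans htσ, hw3⟩⟩
  choose w hw using hforce
  have hnorming : ∀ x : X, ∃ Ψ : X →L[ℝ] ℝ, ‖Ψ‖ ≤ 1 ∧ Ψ x = ‖x‖ := fun x => by
    obtain ⟨Ψ, h1, h2⟩ := exists_dual_vector'' ℝ x
    exact ⟨Ψ, h1, by simpa using h2⟩
  choose N hN1 hN2 using hnorming
  have hj₀G : j₀ ∈ closure (G m) := hball' j₀ (by rwa [dist_self])
  obtain ⟨j₁, q₁, hq₁, -⟩ : (G m).Nonempty := closure_nonempty_iff.1 ⟨_, hj₀G⟩
  have hpack : ∀ a b d : Z, ∃ q : Q m, a ≠ b → b ≠ d →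
      Pack (w a b) (w b d) (q : X) K (1 - N (w b d) (w a b)) := by
    intro a b d
    by_cases hab : a = b
    · exact ⟨⟨q₁, hq₁⟩, fun h => (h hab).elim⟩
    by_cases hbd : b = d
    · exact ⟨⟨q₁, hq₁⟩, fun _ h => (h hbd).elim⟩
    obtain ⟨h1, h2, h3⟩ := hw a b hab
    obtain ⟨h4, h5, h6⟩ := hw b d hbd
    have h7 := hN1 (w b d)
    have h8 : N (w b d) (w b d) = 1 := by rw [hN2, h4]
    have h9 : |N (w b d) (w a b)| ≤ 1 := by
      have := ball_le h7 (w a b)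
      rwa [h1] at this
    have h10 : N (w b d) (w a b) < 1 := by
      refine lt_of_le_of_ne (abs_le.1 h9).2 fun h => ?_
      have h11 := (h3 _ h7 h).2
      have h12 := (h6 _ h7 h8).1
      linarith
    obtain ⟨j, hj1, hj2, hj3⟩ := hplane (w a b) (w b d) (N (w b d)) h1 h4 h2 h5 h7 h8 h10
    set κ := 1 - N (w b d) (w a b) with hκ
    have hκ0 : 0 < κ := by linarith
    have hκ2 : κ ≤ 2 := by
      have := (abs_le.1 h9).1
      linarith
    have hmem : PP.of j ∈ closure (G m) :=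
      hball' _ ((dist_of j₀ j hε0.le hj1).trans_lt hερ)
    set S := 1 / κ + (8 / κ ^ 2 + K) / κ with hS
    have hS0 : 0 < S := by positivity
    obtain ⟨j', ⟨q, hq, hfq⟩, hj'⟩ := Metric.mem_closure_iff.1 hmem (1 / (10 * S)) (by positivity)
    refine ⟨⟨q, hq⟩, fun _ _ => ⟨hκ0, hκ2, j, PP.li j', f j', 1 / (10 * S), by positivity, ?_,
      hf j', hfq.le, ?_, hj2, hj3⟩⟩
    · rw [← hS]
      apply le_of_eq
      field_simp
    · intro e
      have h13 : ‖(j'.1 - (PP.of j).1) e‖ ≤ _ := (j'.1 - (PP.of j).1).le_opNorm e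
      rw [dist_comm] at hj'
      have h14 : ‖j'.1 - (PP.of j).1‖ ≤ 1 / (10 * S) := by
        rw [← dist_eq_norm]
        exact hj'.le
      exact h13.trans (mul_le_mul_of_nonneg_right h14 (norm_nonneg _))
  choose q hq using hpack
  let _ : LinearOrder Z := IsWellOrder.linearOrder WellOrderingRel
  have hcol : #(Set (Set (Q m × ℝ))) < #Z := by
    refine lt_of_le_of_lt ?_ hZν
    rw [mk_set, mk_set, hν]
    refine power_le_power_left two_ne_zero (power_le_power_left two_ne_zero ?_)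
    rw [mk_prod, lift_id, lift_id, mk_real]
    refine (mul_le_mul' (le_max_left _ 𝔠) (le_max_right #(Q m) _)).trans ?_
    rw [mul_eq_self (aleph0_le_continuum.trans (le_max_right _ _))]
  obtain ⟨a, b, d, e, hab, hbd, hde, hc⟩ := triple_lemma hcol
    (fun a b d => (q a b d, 1 - N (w b d) (w a b)))
  have h1 := hq a b d hab.ne hbd.ne
  have h2 := hq b d e hbd.ne hde.ne
  have h3 : q a b d = q b d e := congrArg Prod.fst hc
  have h4 : 1 - N (w b d) (w a b) = 1 - N (w d e) (w b d) := congrArg Prod.snd hc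
  rw [h3, h4] at h1
  exact pack_false hK h1 h2

/-- Strong limit cardinals of countable cofinality. -/
theorem no_strong_limit [CompleteSpace X] (hX : SG X) {κ : Cardinal.{0}} (hκ : κ.IsStrongLimit)
    (h0 : ℵ₀ < κ) (hcof : κ.ord.cof = ℵ₀) (h1 : ∃ S : Set X, Dense S ∧ #S = κ)
    (h2 : ∀ S : Set X, Dense S → κ ≤ #S) : False := by
  obtain ⟨S, hS, hSκ⟩ := h1
  obtain ⟨C, hC, hCc⟩ := Order.exists_cof_eq κ.ord.ToType
  rw [Ordinal.cof_toType, hcof] at hCc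
  have hcount : Countable C := mk_le_aleph0_iff.1 hCc.le
  have hne : Nonempty C := by
    rw [← mk_ne_zero_iff, hCc]
    exact aleph0_ne_zero
  obtain ⟨a, ha⟩ := exists_surjective_nat C
  have he : Nonempty (κ.ord.ToType ≃ S) := by
    rw [← Cardinal.eq, mk_toType, card_ord, hSκ]
  obtain ⟨e⟩ := he
  let Q : ℕ → Set X := fun m => (fun t => ((e t : S) : X)) '' (Iic (a m : κ.ord.ToType))
  have hQc : ∀ m, #(Q m) < κ := by
    intro m
    refine mk_image_le.trans_lt ?_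
    have h3 : Iic (a m : κ.ord.ToType) = insert (a m : κ.ord.ToType) (Iio (a m : κ.ord.ToType)) := by
      ext x
      simp [le_iff_eq_or_lt]
    rw [h3]
    refine (mk_insert_le).trans_lt ?_
    refine add_lt_of_lt h0.le ?_ (one_lt_aleph0.trans h0)
    exact mk_Iio_toType_ord_lt (a m : κ.ord.ToType)
  have hcont : 𝔠 < κ := hκ.isStrongPrelimit h0
  refine no_strong_gurarii hX Q ?_ ?_
  · have h3 : (⋃ m, Q m) = S := by
      ext x
      constructor
      · intro hx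
        obtain ⟨m, t, -, rfl⟩ := mem_iUnion.1 hx
        exact (e t).2
      · intro hx
        obtain ⟨c, hcC, hc⟩ := hC (e.symm ⟨x, hx⟩)
        obtain ⟨m, hm⟩ := ha ⟨c, hcC⟩
        refine mem_iUnion.2 ⟨m, e.symm ⟨x, hx⟩, ?_, ?_⟩
        · rw [mem_Iic, hm]
          exact hc
        · simp
    rw [h3]
    exact hS
  · intro m T hT
    refine lt_of_lt_of_le ?_ (h2 T hT)
    exact hκ.isStrongPrelimit (hκ.isStrongPrelimit (max_lt (hQc m) hcont))

end Pool.Agent.R278.Sing
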