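import Pool.Agent.R278.Sing.Point

/-!
# The norming set of the amalgam
-/

open Set Filter Topology
open scoped ENNReal

namespace Pool.Agent.R278.Sing

variable {X : Type} [NormedAddCommGroup X] [NormedSpace ℝ X]

theorem ball_le {Ψ : X →L[ℝ] ℝ} (h : ‖Ψ‖ ≤ 1) (x : X) : |Ψ x| ≤ ‖x‖ := by
  rw [← Real.norm_eq_abs]
  refine (Ψ.le_opNorm x).trans ?_
  nlinarith [norm_nonneg x]

theorem ball_comb {Ψ Φ : X →L[ℝ] ℝ} (h : ‖Ψ‖ ≤ 1) (h' : ‖Φ‖ ≤ 1) {m : ℝ} (h0 : 0 ≤ m)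
    (h1 : m ≤ 1) : ‖(1 - m) • Ψ + m • Φ‖ ≤ 1 := by
  refine (norm_add_le _ _).trans ?_
  rw [norm_smul, norm_smul, Real.norm_of_nonneg h0, Real.norm_of_nonneg (by linarith)]
  nlinarith [norm_nonneg Ψ, norm_nonneg Φ]

theorem rep (j₀ : ℂ →ₗᵢ[ℝ] X) (Ψ : X →L[ℝ] ℝ) (e : ℂ) :
    Ψ (j₀ e) = dp ⟨Ψ (j₀ 1), Ψ (j₀ Complex.I)⟩ e := by
  have h1 : e = e.re • (1 : ℂ) + e.im • Complex.I := by
    apply Complex.ext <;> simp
  conv_lhs => rw [h1]
  rw [map_add, map_smul, map_smul, map_add, map_smul, map_smul, smul_eq_mul, smul_eq_mul, dp]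
  ring

theorem rep_norm (j₀ : ℂ →ₗᵢ[ℝ] X) {Ψ : X →L[ℝ] ℝ} (h : ‖Ψ‖ ≤ 1) :
    ‖(⟨Ψ (j₀ 1), Ψ (j₀ Complex.I)⟩ : ℂ)‖ ≤ 1 := by
  set y : ℂ := ⟨Ψ (j₀ 1), Ψ (j₀ Complex.I)⟩ with hy
  have h1 : Ψ (j₀ y) = ‖y‖ ^ 2 := by rw [rep, ← hy, dp_self]
  have h2 := ball_le h (j₀ y)
  rw [h1, j₀.norm_map, abs_of_nonneg (by positivity)] at h2
  by_contra h3
  rw [not_le] at h3
  nlinarith

theorem close_of_near (j₀ : ℂ →ₗᵢ[ℝ] X) {Ψ : X →L[ℝ] ℝ} (h : ‖Ψ‖ ≤ 1) {δ : ℝ} (hδ : 0 ≤ δ)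
    (h1 : 2 * (1 - Ψ (j₀ 1)) ≤ δ ^ 2) (e : ℂ) : |Ψ (j₀ e) - e.re| ≤ δ * ‖e‖ := by
  have h2 := rep_norm j₀ h
  have h3 := rep j₀ Ψ e
  set y : ℂ := ⟨Ψ (j₀ 1), Ψ (j₀ Complex.I)⟩ with hy
  have h4 : e.re = dp 1 e := by simp [dp]
  have h5 : y.re = Ψ (j₀ 1) := rfl
  rw [h3, h4, ← dp_sub_left]
  refine (abs_dp_le _ _).trans (mul_le_mul_of_nonneg_right ?_ (norm_nonneg _))
  have h6 : ‖y - 1‖ ^ 2 ≤ δ ^ 2 := by
    rw [normSq_eq, Complex.sub_re, Complex.sub_im, Complex.one_re, Complex.one_im, sub_zero]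
    have h7 : y.re ^ 2 + y.im ^ 2 ≤ 1 := by
      rw [← normSq_eq]
      nlinarith [norm_nonneg y]
    rw [← h5] at h1
    nlinarith
  have h8 := abs_le_of_sq_le_sq h6 hδ
  rwa [abs_of_nonneg (norm_nonneg _)] at h8

/-- The norming set. -/
def BB (j₀ : ℂ →ₗᵢ[ℝ] X) (g g' : X) (ε M κ : ℝ) : Set ((X →L[ℝ] ℝ) × ℂ) :=
  {p | ‖p.1‖ ≤ 1 ∧ ‖p.2‖ ≤ 1 ∧ p.1 g = dp p.2 (uk κ) ∧
    (∀ e, |p.1 (j₀ e) - dp p.2 e| ≤ ε * ‖e‖) ∧ |M * p.2.re - p.1 g'| ≤ M - 1 + κ / 2}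

theorem BB_neg {j₀ : ℂ →ₗᵢ[ℝ] X} {g g' : X} {ε M κ : ℝ} {Ψ : X →L[ℝ] ℝ} {x : ℂ}
    (h : (Ψ, x) ∈ BB j₀ g g' ε M κ) : (-Ψ, -x) ∈ BB j₀ g g' ε M κ := by
  obtain ⟨h1, h2, h3, h4, h5⟩ := h
  refine ⟨?_, ?_, ?_, fun e => ?_, ?_⟩
  · change ‖-Ψ‖ ≤ 1
    rwa [norm_neg]
  · change ‖-x‖ ≤ 1
    rwa [norm_neg]
  · change (-Ψ) g = dp (-x) (uk κ)
    simp only at h3
    rw [_root_.neg_apply, h3]
    simp only [dp, Complex.neg_re, Complex.neg_im]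
    ring
  · change |(-Ψ) (j₀ e) - dp (-x) e| ≤ ε * ‖e‖
    have h6 : (-Ψ) (j₀ e) - dp (-x) e = -(Ψ (j₀ e) - dp x e) := by
      simp only [dp, Complex.neg_re, Complex.neg_im, _root_.neg_apply]
      ring
    rw [h6, abs_neg]
    exact h4 e
  · change |M * (-x).re - (-Ψ) g'| ≤ M - 1 + κ / 2
    have h6 : M * (-x).re - (-Ψ) g' = -(M * x.re - Ψ g') := by
      simp only [Complex.neg_re, _root_.neg_apply]
      ring
    rw [h6, abs_neg]
    exact h5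

/-- The parameters. -/
structure Data (j₀ : ℂ →ₗᵢ[ℝ] X) (g g' : X) (ε ζ τ M κ : ℝ) (Ψ₀ : X →L[ℝ] ℝ) : Prop where
  hε : 0 < ε
  hε1 : ε ≤ 1
  hζ : ζ = ε ^ 2 / 64
  hτ : τ = ε * ζ / 8
  hκ : 0 < κ
  hκ1 : κ ≤ τ
  hg : ‖g‖ = 1
  hg' : ‖g'‖ = 1
  hgj : ‖uk κ - 1‖ + ‖g - j₀ 1‖ ≤ τ
  hΨ : ‖Ψ₀‖ ≤ 1
  h1 : Ψ₀ g' = 1
  h2 : Ψ₀ g = 1 - κ
  hM1 : 8 ≤ M * κ ^ 2
  hM2 : 10 ≤ M
  hM3 : 2 ≤ M * ζ

variable {j₀ : ℂ →ₗᵢ[ℝ] X} {g g' : X} {ε ζ τ M κ : ℝ} {Ψ₀ : X →L[ℝ] ℝ}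

theorem Data.small (d : Data j₀ g g' ε ζ τ M κ Ψ₀) :
    0 < ζ ∧ ζ ≤ 1 / 64 ∧ 0 < τ ∧ τ ≤ ζ / 8 ∧ κ ≤ 1 / 4 := by
  obtain ⟨hε, hε1, hζ, hτ, hκ, hκ1, -⟩ := d
  have h1 : 0 < ζ := by rw [hζ]; positivity
  have h2 : ζ ≤ 1 / 64 := by rw [hζ]; nlinarith
  have h3 : τ ≤ ζ / 8 := by rw [hτ]; nlinarith
  refine ⟨h1, h2, by rw [hτ]; positivity, h3, by linarith⟩

/-- (P1), near the point `1`. -/
theorem Data.near (d : Data j₀ g g' ε ζ τ M κ Ψ₀) {x : ℂ} (hx : ‖x‖ = 1) (hxr : 1 - ζ ≤ x.re) :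
    ∃ Ψ, (Ψ, x) ∈ BB j₀ g g' ε M κ := by
  obtain ⟨hζ0, hζ1, hτ0, hτ1, hκ4⟩ := d.small
  have hκ := d.hκ
  obtain ⟨Ψg, hg1, hg2⟩ := exists_dual_vector'' ℝ g
  rw [d.hg] at hg2
  have hgg : Ψg g = 1 := by simpa using hg2
  set c := dp x (uk κ) with hc
  set s := (uk κ).im with hs
  have hs2 : s ^ 2 = κ * (2 - κ) := uk_im_sq hκ.le (by linarith)
  have hc' : c = x.re * (1 - κ) + x.im * s := rfl
  have hxx : x.re ^ 2 + x.im ^ 2 = 1 := by rw [← normSq_eq, hx, one_pow]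
  have hxre : x.re ≤ 1 := by nlinarith [sq_nonneg x.im]
  have hxre0 : 0 ≤ x.re := by linarith
  have hc1 : |c| ≤ 1 := by
    refine (abs_dp_le _ _).trans ?_
    rw [hx, norm_uk hκ.le (by linarith), mul_one]
  have hcc := abs_le.1 hc1
  set w := x.im * s with hw
  have hw2 : w ^ 2 ≤ 4 * κ * (1 - x.re) := by
    have e1 : x.im ^ 2 = (1 - x.re) * (1 + x.re) := by linarith
    rw [hw, mul_pow, hs2, e1]
    have e2 : (1 - x.re) * (1 + x.re) ≤ 2 * (1 - x.re) := by nlinarith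
    have e3 : κ * (2 - κ) ≤ 2 * κ := by nlinarith
    calc (1 - x.re) * (1 + x.re) * (κ * (2 - κ)) ≤ 2 * (1 - x.re) * (2 * κ) :=
          mul_le_mul e2 e3 (by nlinarith) (by linarith)
      _ = _ := by ring
  -- it suffices to find a functional with the right values
  suffices h : ∃ Ψ : X →L[ℝ] ℝ, ‖Ψ‖ ≤ 1 ∧ Ψ g = c ∧ 1 - Ψ g' ≤ M * (1 - x.re) + κ / 2 by
    obtain ⟨Ψ, hΨ, hΨg, hΨg'⟩ := h
    refine ⟨Ψ, hΨ, hx.le, hΨg, fun e => ?_, ?_⟩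
    · have e1 : Ψ (j₀ 1) ≥ c - ‖g - j₀ 1‖ := by
        have e2 := (abs_le.1 (ball_le hΨ (g - j₀ 1))).2
        rw [map_sub, hΨg] at e2
        linarith
      have e2 : c ≥ x.re - ‖uk κ - 1‖ := by
        have e3 : c = x.re + dp x (uk κ - 1) := by
          rw [hc]
          simp only [dp, Complex.sub_re, Complex.sub_im, Complex.one_re, Complex.one_im]
          ring
        have e4 := (abs_le.1 (abs_dp_le x (uk κ - 1))).1
        rw [hx, one_mul] at e4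
        linarith
      have e3 := d.hgj
      have e4 : Ψ (j₀ 1) ≥ 1 - 2 * ζ := by linarith
      have e5 : |Ψ (j₀ e) - e.re| ≤ (ε / 4) * ‖e‖ := by
        apply close_of_near j₀ hΨ (by linarith [d.hε])
        have := d.hζ
        nlinarith
      have e6 : |dp (1 - x) e| ≤ (ε / 4) * ‖e‖ := by
        refine (abs_dp_le _ _).trans (mul_le_mul_of_nonneg_right ?_ (norm_nonneg _))
        have e7 : ‖1 - x‖ ^ 2 ≤ (ε / 4) ^ 2 := by
          rw [normSq_eq, Complex.sub_re, Complex.sub_im, Complex.one_re, Complex.one_im]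
          have := d.hζ
          nlinarith
        have e8 := abs_le_of_sq_le_sq e7 (by linarith [d.hε])
        rwa [abs_of_nonneg (norm_nonneg _)] at e8
      have e9 : Ψ (j₀ e) - dp x e = (Ψ (j₀ e) - e.re) + dp (1 - x) e := by
        simp only [dp, Complex.sub_re, Complex.sub_im, Complex.one_re, Complex.one_im]
        ring
      change |Ψ (j₀ e) - dp x e| ≤ ε * ‖e‖
      rw [e9]
      refine (abs_add_le _ _).trans ?_
      have := mul_nonneg d.hε.le (norm_nonneg e)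
      linarith
    · change |M * x.re - Ψ g'| ≤ M - 1 + κ / 2
      have e1 := abs_le.1 (ball_le hΨ g')
      rw [d.hg'] at e1
      have e2 := d.hM2
      rw [abs_le]
      constructor <;> nlinarith
  rcases le_total (1 - κ) c with h | h
  · set m := (c - (1 - κ)) / κ with hm
    have hmκ : m * κ = c - (1 - κ) := by rw [hm]; field_simp
    have hm0 : 0 ≤ m := div_nonneg (by linarith) hκ.le
    have hm1 : m ≤ 1 := by
      rw [hm, div_le_one hκ]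
      linarith
    refine ⟨(1 - m) • Ψ₀ + m • Ψg, ball_comb d.hΨ hg1 hm0 hm1, ?_, ?_⟩
    · rw [_root_.add_apply, _root_.smul_apply,
        _root_.smul_apply, smul_eq_mul, smul_eq_mul, d.h2, hgg]
      linarith
    · rw [_root_.add_apply, _root_.smul_apply,
        _root_.smul_apply, smul_eq_mul, smul_eq_mul, d.h1]
      have e1 := (abs_le.1 (ball_le hg1 g')).1
      rw [d.hg'] at e1
      have e2 : 1 - ((1 - m) * 1 + m * Ψg g') ≤ 2 * m := by nlinarith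
      have e3 : m * κ ≤ w := by
        rw [hmκ, hc']
        nlinarith
      have e4 : (m * κ) ^ 2 ≤ 4 * κ * (1 - x.re) :=
        (pow_le_pow_left₀ (mul_nonneg hm0 hκ.le) e3 2).trans hw2
      have e5 : m ^ 2 * κ ≤ 4 * (1 - x.re) := by
        have : κ * (m ^ 2 * κ) ≤ κ * (4 * (1 - x.re)) := by nlinarith
        exact le_of_mul_le_mul_left this hκ
      have e6 : 2 * m ^ 2 ≤ M * (1 - x.re) * κ := by
        have e7 := d.hM1
        have e8 : 8 * (m ^ 2 * κ) ≤ M * κ ^ 2 * (4 * (1 - x.re)) :=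
          mul_le_mul e7 e5 (by positivity) (by linarith)
        have e9 : κ * (2 * m ^ 2) ≤ κ * (M * (1 - x.re) * κ) := by nlinarith
        exact le_of_mul_le_mul_left e9 hκ
      have e10 : 2 * m * κ ≤ (M * (1 - x.re) + κ / 2) * κ := by
        nlinarith [sq_nonneg (2 * m - κ)]
      have e11 := le_of_mul_le_mul_right e10 hκ
      linarith
  · set m := ((1 - κ) - c) / (2 - κ) with hm
    have h2κ : 0 < 2 - κ := by linarith
    have hmκ : m * (2 - κ) = (1 - κ) - c := by rw [hm]; field_simp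
    have hm0 : 0 ≤ m := div_nonneg (by linarith) h2κ.le
    have hm1 : m ≤ 1 := by
      rw [hm, div_le_one h2κ]
      linarith
    refine ⟨(1 - m) • Ψ₀ + m • (-Ψg), ball_comb d.hΨ (by rwa [norm_neg]) hm0 hm1, ?_, ?_⟩
    · rw [_root_.add_apply, _root_.smul_apply,
        _root_.smul_apply, smul_eq_mul, smul_eq_mul, _root_.neg_apply,
        d.h2, hgg]
      linarith
    · rw [_root_.add_apply, _root_.smul_apply,
        _root_.smul_apply, smul_eq_mul, smul_eq_mul, _root_.neg_apply,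
        d.h1]
      have e1 := (abs_le.1 (ball_le hg1 g')).2
      rw [d.hg'] at e1
      have e2 : 1 - ((1 - m) * 1 + m * -Ψg g') ≤ 2 * m := by nlinarith
      have e3 : m ≤ (1 - x.re) + |w| := by
        have e4 : m ≤ m * (2 - κ) := by nlinarith
        have e5 : m * (2 - κ) = (1 - κ) * (1 - x.re) - w := by
          rw [hmκ, hc']
          ring
        have e6 := neg_abs_le w
        nlinarith
      have e4 : 2 * |w| ≤ 8 * (1 - x.re) + κ / 2 := by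
        have e5 : (2 * |w|) ^ 2 ≤ (8 * (1 - x.re) + κ / 2) ^ 2 := by
          have e6 : (2 * |w|) ^ 2 = 4 * w ^ 2 := by rw [mul_pow, sq_abs]; ring
          rw [e6]
          nlinarith [sq_nonneg (8 * (1 - x.re) - κ / 2)]
        have e7 := abs_le_of_sq_le_sq e5 (by nlinarith)
        rwa [abs_of_nonneg (by positivity)] at e7
      have e5 := d.hM2
      nlinarith

/-- (P1), far from the points `1` and `-1`. -/
theorem Data.far (d : Data j₀ g g' ε ζ τ M κ Ψ₀) {x : ℂ} (hx : ‖x‖ = 1) (hxr : |x.re| ≤ 1 - ζ) :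
    ∃ Ψ, (Ψ, x) ∈ BB j₀ g g' ε M κ := by
  obtain ⟨hζ0, hζ1, hτ0, hτ1, hκ4⟩ := d.small
  have hκ := d.hκ
  have hε := d.hε
  obtain ⟨Ψg, hg1, hg2⟩ := exists_dual_vector'' ℝ g
  rw [d.hg] at hg2
  have hgg : Ψg g = 1 := by simpa using hg2
  obtain ⟨Ψx, hx1, hxval⟩ := Hom.hb_values ![j₀ 1, j₀ Complex.I] ![x.re, x.im] (by
    intro a
    simp only [Fin.sum_univ_two, Matrix.cons_val_zero, Matrix.cons_val_one]
    rw [← map_smul, ← map_smul, ← map_add, j₀.norm_map]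
    have e1 : a 0 * x.re + a 1 * x.im = dp x (a 0 • (1 : ℂ) + a 1 • Complex.I) := by
      simp [dp]
      ring
    rw [e1]
    refine (abs_dp_le _ _).trans ?_
    rw [hx, one_mul])
  have hx2 : ∀ e, Ψx (j₀ e) = dp x e := by
    intro e
    rw [rep]
    have e1 : Ψx (j₀ 1) = x.re := hxval 0
    have e2 : Ψx (j₀ Complex.I) = x.im := hxval 1
    rw [e1, e2]
  set c := dp x (uk κ) with hc
  have hc1 : |c| ≤ 1 - ζ / 2 := by
    have e3 : c = x.re + dp x (uk κ - 1) := by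
      rw [hc]
      simp only [dp, Complex.sub_re, Complex.sub_im, Complex.one_re, Complex.one_im]
      ring
    rw [e3]
    refine (abs_add_le _ _).trans ?_
    have e4 := abs_dp_le x (uk κ - 1)
    rw [hx, one_mul] at e4
    have e5 := d.hgj
    have e6 := norm_nonneg (g - j₀ 1)
    linarith
  have hcc := abs_le.1 hc1
  have hdiff : |c - Ψx g| ≤ τ := by
    have e1 : c - Ψx g = Ψx (j₀ (uk κ) - g) := by rw [map_sub, hx2]
    rw [e1]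
    refine (ball_le hx1 _).trans ?_
    have e2 : j₀ (uk κ) - g = j₀ (uk κ - 1) - (g - j₀ 1) := by rw [map_sub]; abel
    rw [e2]
    refine (norm_sub_le _ _).trans ?_
    rw [j₀.norm_map]
    exact d.hgj
  have hdd := abs_le.1 hdiff
  -- it suffices to find a small perturbation of `Ψx`
  suffices h : ∃ Φ : X →L[ℝ] ℝ, ‖Φ‖ ≤ 1 ∧ ∃ m, 0 ≤ m ∧ m ≤ ε / 2 ∧
      (1 - m) * Ψx g + m * Φ g = c by
    obtain ⟨Φ, hΦ, m, hm0, hm1, hval⟩ := h
    have hΨ : ‖(1 - m) • Ψx + m • Φ‖ ≤ 1 := ball_comb hx1 hΦ hm0 (by linarith [d.hε1])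
    refine ⟨(1 - m) • Ψx + m • Φ, hΨ, hx.le, hval, fun e => ?_, ?_⟩
    · change |((1 - m) • Ψx + m • Φ) (j₀ e) - dp x e| ≤ ε * ‖e‖
      have e1 : ((1 - m) • Ψx + m • Φ) (j₀ e) - dp x e = m * (Φ (j₀ e) - Ψx (j₀ e)) := by
        rw [_root_.add_apply, _root_.smul_apply,
          _root_.smul_apply, smul_eq_mul, smul_eq_mul, ← hx2]
        ring
      rw [e1, abs_mul, abs_of_nonneg hm0]
      have e2 := ball_le hΦ (j₀ e)
      have e3 := ball_le hx1 (j₀ e)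
      rw [j₀.norm_map] at e2 e3
      have e4 : |Φ (j₀ e) - Ψx (j₀ e)| ≤ 2 * ‖e‖ := by
        refine (abs_sub _ _).trans ?_
        linarith
      calc m * |Φ (j₀ e) - Ψx (j₀ e)| ≤ (ε / 2) * (2 * ‖e‖) :=
            mul_le_mul hm1 e4 (abs_nonneg _) (by linarith)
        _ = ε * ‖e‖ := by ring
    · change |M * x.re - ((1 - m) • Ψx + m • Φ) g'| ≤ M - 1 + κ / 2
      have e1 := ball_le hΨ g'
      rw [d.hg'] at e1
      refine (abs_sub _ _).trans ?_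
      rw [abs_mul, abs_of_nonneg (by linarith [d.hM2])]
      have e2 := d.hM3
      have e3 : M * |x.re| ≤ M * (1 - ζ) := mul_le_mul_of_nonneg_left hxr (by linarith [d.hM2])
      nlinarith
  have hτζ : τ / (ζ / 2) = ε / 4 := by
    rw [d.hτ]
    field_simp
    norm_num
  rcases le_total (Ψx g) c with h | h
  · have e1 : ζ / 2 ≤ 1 - Ψx g := by linarith
    have e2 : 0 < 1 - Ψx g := by linarith
    refine ⟨Ψg, hg1, (c - Ψx g) / (1 - Ψx g), div_nonneg (by linarith) e2.le, ?_, ?_⟩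
    · calc (c - Ψx g) / (1 - Ψx g) ≤ τ / (ζ / 2) :=
            div_le_div₀ hτ0.le (by linarith) (by linarith) e1
        _ ≤ ε / 2 := by rw [hτζ]; linarith
    · rw [hgg]
      field_simp
      ring
  · have e1 : ζ / 2 ≤ 1 + Ψx g := by linarith
    have e2 : 0 < 1 + Ψx g := by linarith
    refine ⟨-Ψg, by rwa [norm_neg], (Ψx g - c) / (1 + Ψx g), div_nonneg (by linarith) e2.le,
      ?_, ?_⟩
    · calc (Ψx g - c) / (1 + Ψx g) ≤ τ / (ζ / 2) :=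
            div_le_div₀ hτ0.le (by linarith) (by linarith) e1
        _ ≤ ε / 2 := by rw [hτζ]; linarith
    · rw [_root_.neg_apply, hgg]
      field_simp
      ring

/-- (P2). -/
theorem Data.all (d : Data j₀ g g' ε ζ τ M κ Ψ₀) {Ψ : X →L[ℝ] ℝ} (hΨ : ‖Ψ‖ ≤ 1) :
    ∃ x, (Ψ, x) ∈ BB j₀ g g' ε M κ := by
  obtain ⟨hζ0, hζ1, hτ0, hτ1, hκ4⟩ := d.small
  have hκ := d.hκ
  have hε := d.hε
  have hε1 := d.hε1
  have h1 := rep_norm j₀ hΨ
  have h2 := rep j₀ Ψ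
  set y : ℂ := ⟨Ψ (j₀ 1), Ψ (j₀ Complex.I)⟩ with hy
  have hc : |Ψ g| ≤ 1 := by
    refine (ball_le hΨ g).trans ?_
    rw [d.hg]
  have hyc : |dp y (uk κ) - Ψ g| ≤ τ := by
    rw [← h2, ← map_sub]
    refine (ball_le hΨ _).trans ?_
    have e2 : j₀ (uk κ) - g = j₀ (uk κ - 1) - (g - j₀ 1) := by rw [map_sub]; abel
    rw [e2]
    refine (norm_sub_le _ _).trans ?_
    rw [j₀.norm_map]
    exact d.hgj
  have hζε : ζ ≤ ε / 64 := by rw [d.hζ]; nlinarith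
  obtain ⟨x, hx1, hx2, hx3, hx4⟩ := exists_second hκ (by linarith) h1 hc hyc hε
    (by linarith [d.hκ1]) (by
      have e1 := d.hζ
      have e2 : 2 * τ ≤ ζ := by linarith
      nlinarith)
  refine ⟨x, hΨ, hx1, hx2.symm, fun e => ?_, ?_⟩
  · change |Ψ (j₀ e) - dp x e| ≤ ε * ‖e‖
    rw [h2, ← dp_sub_left]
    exact (abs_dp_le _ _).trans (mul_le_mul_of_nonneg_right hx3 (norm_nonneg _))
  · change |M * x.re - Ψ g'| ≤ M - 1 + κ / 2
    have e1 := ball_le hΨ g'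
    rw [d.hg'] at e1
    refine (abs_sub _ _).trans ?_
    rw [abs_mul, abs_of_nonneg (by linarith [d.hM2])]
    have e2 := d.hM1
    have e3 : M * |x.re| ≤ M * (1 - κ ^ 2 / 2) :=
      mul_le_mul_of_nonneg_left hx4 (by linarith [d.hM2])
    nlinarith

theorem Data.exists_j (hX : SG X) (d : Data j₀ g g' ε ζ τ M κ Ψ₀) :
    ∃ j : ℂ →ₗᵢ[ℝ] X, (∀ e, ‖j e - j₀ e‖ ≤ ε * ‖e‖) ∧ j (uk κ) = g ∧
      ‖M • j 1 - g'‖ ≤ M - 1 + κ / 2 := by
  obtain ⟨hζ0, hζ1, hτ0, hτ1, hκ4⟩ := d.small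
  have hε := d.hε
  have hM2 := d.hM2
  have hκ := d.hκ
  let H : Submodule ℝ X := LinearMap.range j₀.toLinearMap ⊔ Submodule.span ℝ {g, g'}
  have hH : FiniteDimensional ℝ H := by
    have : FiniteDimensional ℝ (Submodule.span ℝ {g, g'} : Submodule ℝ X) :=
      FiniteDimensional.span_of_finite ℝ (by simp)
    change FiniteDimensional ℝ
      (LinearMap.range j₀.toLinearMap ⊔ Submodule.span ℝ {g, g'} : Submodule ℝ X)
    infer_instance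
  obtain ⟨j, hj⟩ := amalg hX H (BB j₀ g g' ε M κ) (fun p hp => hp.1) (fun p hp => hp.2.1)
    (fun x hx => by
      rcases le_or_gt (1 - ζ) x.re with h | h
      · exact d.near hx h
      rcases le_or_gt (1 - ζ) (-x.re) with h' | h'
      · obtain ⟨Ψ, hΨ⟩ := d.near (x := -x) (by rwa [norm_neg]) (by rwa [Complex.neg_re])
        refine ⟨-Ψ, ?_⟩
        have := BB_neg hΨ
        rwa [neg_neg] at this
      · exact d.far hx (abs_le.2 ⟨by linarith, h.le⟩))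
    (fun Ψ hΨ => d.all hΨ)
  have hgH : g ∈ H := Submodule.mem_sup_right (Submodule.subset_span (by simp))
  have hg'H : g' ∈ H := Submodule.mem_sup_right (Submodule.subset_span (by simp))
  refine ⟨j, fun e => ?_, ?_, ?_⟩
  · have h1 := hj (-(j₀ e)) (H.neg_mem (Submodule.mem_sup_left ⟨e, rfl⟩)) e (ε * ‖e‖)
      (by positivity) (fun p hp => by
        rw [map_neg, neg_add_eq_sub, ← abs_neg, neg_sub]
        exact hp.2.2.2.1 e)
    rwa [neg_add_eq_sub] at h1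
  · have h1 := hj (-g) (H.neg_mem hgH) (uk κ) 0 le_rfl (fun p hp => by
      rw [map_neg, neg_add_eq_sub, hp.2.2.1, sub_self, abs_zero])
    rw [neg_add_eq_sub] at h1
    exact sub_eq_zero.1 (norm_le_zero_iff.1 h1)
  · have h1 := hj (-g') (H.neg_mem hg'H) (M • (1 : ℂ)) (M - 1 + κ / 2) (by linarith)
      (fun p hp => by
        have h2 : dp p.2 (M • (1 : ℂ)) = M * p.2.re := by rw [dp_smul, dp_one]
        rw [h2, map_neg, neg_add_eq_sub]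
        exact hp.2.2.2.2)
    rwa [neg_add_eq_sub, map_smul] at h1

/-- The main construction. -/
theorem exists_plane (hX : SG X) (j₀ : ℂ →ₗᵢ[ℝ] X) {ε : ℝ} (hε : 0 < ε) (hε1 : ε ≤ 1) :
    ∃ σ > 0, ∃ K : ℝ, 0 ≤ K ∧ ∀ (g g' : X) (Ψ₀ : X →L[ℝ] ℝ), ‖g‖ = 1 → ‖g'‖ = 1 →
      ‖g - j₀ 1‖ ≤ σ → ‖g' - j₀ 1‖ ≤ σ → ‖Ψ₀‖ ≤ 1 → Ψ₀ g' = 1 → Ψ₀ g < 1 →
      ∃ j : ℂ →ₗᵢ[ℝ] X, (∀ e, ‖j e - j₀ e‖ ≤ ε * ‖e‖) ∧ j (uk (1 - Ψ₀ g)) = g ∧
        ‖(8 / (1 - Ψ₀ g) ^ 2 + K) • j 1 - g'‖ ≤ (8 / (1 - Ψ₀ g) ^ 2 + K) - 1 +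
          (1 - Ψ₀ g) / 2 := by
  set ζ := ε ^ 2 / 64 with hζ
  set τ := ε * ζ / 8 with hτ
  have hζ0 : 0 < ζ := by positivity
  have hτ0 : 0 < τ := by positivity
  have hζ1 : ζ ≤ 1 / 64 := by rw [hζ]; nlinarith
  have hτ1 : τ ≤ 1 := by rw [hτ]; nlinarith
  refine ⟨τ ^ 2 / 9, by positivity, 10 + 2 / ζ, by positivity, ?_⟩
  intro g g' Ψ₀ hg hg' hgj hgj' hΨ h1 h2
  set κ := 1 - Ψ₀ g with hκ
  have hκ0 : 0 < κ := by linarith
  have hκσ : κ ≤ 2 * (τ ^ 2 / 9) := by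
    have e1 : κ = Ψ₀ (g' - g) := by rw [map_sub, h1]
    have e2 := (abs_le.1 (ball_le hΨ (g' - g))).2
    have e3 : g' - g = (g' - j₀ 1) - (g - j₀ 1) := by abel
    have e4 : ‖g' - g‖ ≤ ‖g' - j₀ 1‖ + ‖g - j₀ 1‖ := by
      rw [e3]
      exact norm_sub_le _ _
    rw [e1]
    linarith
  have hτ2 : τ ^ 2 ≤ τ := by nlinarith
  have hu : ‖uk κ - 1‖ ≤ 2 * τ / 3 := by
    have e1 := norm_uk_sub_sq hκ0.le (by linarith)
    have e2 : ‖uk κ - 1‖ ^ 2 ≤ (2 * τ / 3) ^ 2 := by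
      rw [e1]
      nlinarith
    have e3 := abs_le_of_sq_le_sq e2 (by positivity)
    rwa [abs_of_nonneg (norm_nonneg _)] at e3
  have h8 : 0 < 8 / κ ^ 2 := by positivity
  have h2ζ : 0 < 2 / ζ := by positivity
  have d : Data j₀ g g' ε ζ τ (8 / κ ^ 2 + (10 + 2 / ζ)) κ Ψ₀ :=
    { hε := hε
      hε1 := hε1
      hζ := rfl
      hτ := rfl
      hκ := hκ0
      hκ1 := by linarith
      hg := hg
      hg' := hg'
      hgj := by linarith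
      hΨ := hΨ
      h1 := h1
      h2 := by rw [hκ]; ring
      hM1 := by
        have e1 : 8 / κ ^ 2 * κ ^ 2 = 8 := by field_simp
        have e2 : 0 ≤ (10 + 2 / ζ) * κ ^ 2 := by positivity
        rw [add_mul, e1]
        linarith
      hM2 := by linarith
      hM3 := by
        have e1 : 2 / ζ * ζ = 2 := by field_simp
        have e2 : 0 ≤ (8 / κ ^ 2 + 10) * ζ := by positivity
        have e3 : (8 / κ ^ 2 + (10 + 2 / ζ)) * ζ = (8 / κ ^ 2 + 10) * ζ + 2 / ζ * ζ := by ring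
        rw [e3, e1]
        linarith }
  exact d.exists_j hX

end Pool.Agent.R278.Sing
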