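import Pool.Agent.R278.Sing.Amalg
import Pool.Agent.R278.Hom.Tree

/-!
# Planes through a given point, almost touching another one
-/

open Set Filter Topology
open scoped ENNReal

namespace Pool.Agent.R278.Sing

/-- The point of the circle with first coordinate `1 - κ`. -/
noncomputable def uk (κ : ℝ) : ℂ := ⟨1 - κ, √(κ * (2 - κ))⟩

theorem uk_re (κ : ℝ) : (uk κ).re = 1 - κ := rfl

theorem uk_im_sq {κ : ℝ} (h0 : 0 ≤ κ) (h1 : κ ≤ 2) : (uk κ).im ^ 2 = κ * (2 - κ) :=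
  Real.sq_sqrt (mul_nonneg h0 (by linarith))

theorem uk_im_nonneg (κ : ℝ) : 0 ≤ (uk κ).im := Real.sqrt_nonneg _

theorem norm_uk {κ : ℝ} (h0 : 0 ≤ κ) (h1 : κ ≤ 2) : ‖uk κ‖ = 1 := by
  have h2 : ‖uk κ‖ ^ 2 = 1 := by
    rw [normSq_eq, uk_im_sq h0 h1, uk_re]
    ring
  nlinarith [norm_nonneg (uk κ)]

theorem norm_uk_sub_sq {κ : ℝ} (h0 : 0 ≤ κ) (h1 : κ ≤ 2) : ‖uk κ - 1‖ ^ 2 = 2 * κ := by
  rw [normSq_eq, Complex.sub_re, Complex.sub_im, Complex.one_re, Complex.one_im, sub_zero,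
    uk_im_sq h0 h1, uk_re]
  ring

/-- The plane part: the choice of the second coordinate. -/
theorem exists_second {κ τ : ℝ} (h0 : 0 < κ) (h1 : κ ≤ 1) {y : ℂ} (hy : ‖y‖ ≤ 1) {c : ℝ}
    (hc : |c| ≤ 1) (hyc : |dp y (uk κ) - c| ≤ τ) {ε : ℝ} (hε : 0 < ε) (hτ : τ + κ ≤ ε / 2)
    (hτ2 : 2 * τ ≤ (ε / 2) ^ 2) :
    ∃ x : ℂ, ‖x‖ ≤ 1 ∧ dp x (uk κ) = c ∧ ‖y - x‖ ≤ ε ∧ |x.re| ≤ 1 - κ ^ 2 / 2 := by
  set p := (uk κ).re with hp
  set s := (uk κ).im with hs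
  have hp1 : p = 1 - κ := rfl
  have hp0 : 0 ≤ p := by linarith
  have hs0 : 0 ≤ s := uk_im_nonneg κ
  have hs2 : s ^ 2 = κ * (2 - κ) := uk_im_sq h0.le (by linarith)
  have hps : p ^ 2 + s ^ 2 = 1 := by rw [hs2, hp1]; ring
  set a := dp y (uk κ) with ha
  have ha' : a = y.re * p + y.im * s := rfl
  set b := y.im * p - y.re * s with hb
  have hab : a ^ 2 + b ^ 2 ≤ 1 := by
    have h2 : a ^ 2 + b ^ 2 = ‖y‖ ^ 2 * (p ^ 2 + s ^ 2) := by
      rw [normSq_eq, ha', hb]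
      ring
    rw [h2, hps, mul_one]
    nlinarith [norm_nonneg y]
  have hc2 : c ^ 2 ≤ 1 := by
    rw [← sq_abs]
    nlinarith [abs_nonneg c]
  have hτ0 : 0 ≤ τ := (abs_nonneg _).trans hyc
  -- the clipped coordinate
  obtain ⟨b', hb1, hb2⟩ : ∃ b', b' ^ 2 ≤ 1 - c ^ 2 ∧ (b - b') ^ 2 ≤ 2 * τ := by
    set q := √(1 - c ^ 2) with hq
    have hq2 : q ^ 2 = 1 - c ^ 2 := Real.sq_sqrt (by linarith)
    have hq0 : 0 ≤ q := Real.sqrt_nonneg _
    have hca : c ^ 2 - a ^ 2 ≤ 2 * τ := by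
      have h2 := abs_le.1 hyc
      have h3 := abs_le.1 hc
      have h4 : |a| ≤ 1 := by
        rw [← abs_one, ← sq_le_sq]
        nlinarith [sq_nonneg b]
      have h5 := abs_le.1 h4
      have h6 : c ^ 2 - a ^ 2 ≤ |a - c| * |a + c| := by
        rw [← abs_mul]
        refine le_trans ?_ (neg_le_abs _)
        nlinarith
      have h7 : |a + c| ≤ 2 := by
        rw [abs_le]
        constructor <;> linarith
      have h8 : |a - c| * |a + c| ≤ τ * 2 :=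
        mul_le_mul hyc h7 (abs_nonneg _) hτ0
      linarith
    rcases le_total |b| q with h2 | h2
    · refine ⟨b, ?_, ?_⟩
      · rw [← hq2, ← sq_abs]
        exact pow_le_pow_left₀ (abs_nonneg _) h2 2
      · rw [sub_self]
        nlinarith
    · have h3 : (|b| - q) ^ 2 ≤ 2 * τ := by
        have h4 : (|b| - q) ^ 2 ≤ |b| ^ 2 - q ^ 2 := by nlinarith
        rw [sq_abs, hq2] at h4
        linarith
      rcases le_total 0 b with h4 | h4
      · refine ⟨q, by rw [hq2], ?_⟩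
        rwa [abs_of_nonneg h4] at h3
      · refine ⟨-q, by rw [neg_sq, hq2], ?_⟩
        rw [abs_of_nonpos h4] at h3
        nlinarith
  refine ⟨⟨p * (c - b' * s), c * s + p ^ 2 * b'⟩, ?_, ?_, ?_, ?_⟩
  · have h2 : ‖(⟨p * (c - b' * s), c * s + p ^ 2 * b'⟩ : ℂ)‖ ^ 2 ≤ 1 := by
      rw [normSq_eq]
      have h3 : (p * (c - b' * s)) ^ 2 + (c * s + p ^ 2 * b') ^ 2
          = c ^ 2 * (p ^ 2 + s ^ 2) + p ^ 2 * b' ^ 2 * (p ^ 2 + s ^ 2) := by ring
      change (p * (c - b' * s)) ^ 2 + (c * s + p ^ 2 * b') ^ 2 ≤ 1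
      rw [h3, hps]
      have h4 : p ^ 2 ≤ 1 := by nlinarith
      nlinarith [sq_nonneg b']
    nlinarith [norm_nonneg (⟨p * (c - b' * s), c * s + p ^ 2 * b'⟩ : ℂ)]
  · change p * (c - b' * s) * p + (c * s + p ^ 2 * b') * s = c
    have h2 : p * (c - b' * s) * p + (c * s + p ^ 2 * b') * s = c * (p ^ 2 + s ^ 2) := by ring
    rw [h2, hps, mul_one]
  · have h2 : ‖y - ⟨p * (c - b' * s), c * s + p ^ 2 * b'⟩‖ ^ 2
        = (a - c) ^ 2 + (b - p * b') ^ 2 := by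
      rw [normSq_eq]
      change (y.re - p * (c - b' * s)) ^ 2 + (y.im - (c * s + p ^ 2 * b')) ^ 2 = _
      rw [ha', hb]
      have h3 : (y.re * p + y.im * s - c) ^ 2 + (y.im * p - y.re * s - p * b') ^ 2
          - ((y.re - p * (c - b' * s)) ^ 2 + (y.im - (c * s + p ^ 2 * b')) ^ 2)
          = (y.re ^ 2 + y.im ^ 2 - c ^ 2 - p ^ 2 * b' ^ 2) * (p ^ 2 + s ^ 2 - 1) := by ring
      rw [hps] at h3
      linarith
    have h4 : |b - p * b'| ≤ ε / 2 + κ := by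
      have h5 : b - p * b' = (b - b') + κ * b' := by rw [hp1]; ring
      rw [h5]
      refine (abs_add_le _ _).trans ?_
      have h6 : |b - b'| ≤ ε / 2 := by
        rw [← abs_of_pos (by positivity : 0 < ε / 2), ← sq_le_sq]
        linarith
      have h7 : |b'| ≤ 1 := by
        rw [← abs_one, ← sq_le_sq]
        nlinarith [sq_nonneg c]
      rw [abs_mul, abs_of_pos h0]
      nlinarith
    have h8 : ‖y - ⟨p * (c - b' * s), c * s + p ^ 2 * b'⟩‖ ^ 2 ≤ (τ + (ε / 2 + κ)) ^ 2 := by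
      rw [h2]
      have h9 : (a - c) ^ 2 ≤ τ ^ 2 := by
        rw [← sq_abs (a - c)]
        exact pow_le_pow_left₀ (abs_nonneg _) hyc 2
      have h10 : (b - p * b') ^ 2 ≤ (ε / 2 + κ) ^ 2 := by
        rw [← sq_abs (b - p * b')]
        exact pow_le_pow_left₀ (abs_nonneg _) h4 2
      nlinarith [mul_nonneg hτ0 (by positivity : 0 ≤ ε / 2 + κ)]
    have h11 := abs_le_of_sq_le_sq h8 (by positivity)
    rw [abs_of_nonneg (norm_nonneg _)] at h11
    linarith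
  · change |p * (c - b' * s)| ≤ 1 - κ ^ 2 / 2
    apply abs_le_of_sq_le_sq _ (by nlinarith)
    have h2 : (c - b' * s) ^ 2 ≤ 1 + s ^ 2 := by
      have h3 : (c - b' * s) ^ 2 ≤ (c ^ 2 + b' ^ 2) * (1 + s ^ 2) := by
        nlinarith [sq_nonneg (c * s + b')]
      have h4 : (c ^ 2 + b' ^ 2) * (1 + s ^ 2) ≤ 1 * (1 + s ^ 2) :=
        mul_le_mul_of_nonneg_right (by linarith) (by positivity)
      linarith
    have h5 : (p * (c - b' * s)) ^ 2 ≤ (1 - s ^ 2) * (1 + s ^ 2) := by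
      rw [mul_pow]
      have h6 : p ^ 2 = 1 - s ^ 2 := by linarith
      rw [h6]
      exact mul_le_mul_of_nonneg_left h2 (by nlinarith)
    have h7 : κ ≤ s ^ 2 := by
      rw [hs2]
      nlinarith
    nlinarith

end Pool.Agent.R278.Sing
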